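import Pool.Agent.Helper37_BSig.Stmts

/-!
# LemmaLim and RepBasics
-/

namespace Pool.Agent.BSig.H75

open Pool.Agent.BSig Filter

theorem lemmaLim_proof : LemmaLim := by
  intro X 𝓕 hmono c s hs
  classical
  refine ⟨{p | ∀ᶠ l in (UU : Filter ℕ), p ∈ s l}, ?_, ?_, ?_, ?_⟩
  · refine Set.Countable.mono (s₂ := ⋃ l, (s l : Set (X × Bool))) ?_
      (Set.countable_iUnion fun l => (s l).countable_toSet)
    intro p hp
    obtain ⟨l, hl⟩ := Filter.Eventually.exists (f := (UU : Filter ℕ)) hp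
    exact Set.mem_iUnion.2 ⟨l, hl⟩
  · rintro ⟨x, b, h1, h2⟩
    obtain ⟨l, h3, h4⟩ := (Filter.Eventually.and (f := (UU : Filter ℕ)) h1 h2).exists
    exact (hs l).1 ⟨x, b, h3, h4⟩
  · rintro ⟨x, b, h1, h2⟩
    obtain ⟨l, h3⟩ := Filter.Eventually.exists (f := (UU : Filter ℕ)) h1
    exact (hs l).2.1 ⟨x, b, h3, h2⟩
  · intro l F hF
    have mono : ∀ m, l ≤ m → F ∈ 𝓕 m := by
      intro m hm
      induction hm with
      | refl => exact hF
      | step _ ih => exact hmono _ ih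
    have h1 : ∀ᶠ m in (UU : Filter ℕ), ∃ p ∈ F, (p.1, !p.2) ∈ s m := by
      filter_upwards [eventually_ge l] with m hm
      obtain ⟨x, b, h2, h3⟩ := (hs m).2.2 F (mono m hm)
      exact ⟨(x, b), h2, h3⟩
    by_contra hc
    have h4 : ∀ᶠ m in (UU : Filter ℕ), ∀ p ∈ F, ¬ (p.1, !p.2) ∈ s m := by
      rw [Filter.eventually_all_finset]
      intro p hp
      rw [← not_eventually']
      intro h5
      exact hc ⟨p.1, p.2, hp, h5⟩
    obtain ⟨m, ⟨p, hp, h5⟩, h6⟩ := (h1.and h4).exists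
    exact h6 p hp h5

theorem lt_pow2_of_mem {h b : MM} (hb : ∀ x, Mem x h → x < b) : h < pow2 b := by
  have h1 : Int1 (fun x => Mem x h) :=
    Int1.of_delta0 (IsDelta0.mem (IsTerm.var 0) (IsTerm.param h))
  obtain ⟨e, he, hm⟩ := h1.code b
  have : e = h := mem_ext fun x => by
    rw [hm]
    exact ⟨fun h => h.2, fun h => ⟨hb x h, h⟩⟩
  rw [← this]; exact he

theorem add_le_add_mm {a b c d : MM} (h1 : a ≤ b) (h2 : c ≤ d) : a + c ≤ b + d := by
  refine (PAExp.add_le_add' a b c h1).trans ?_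
  rw [add_comm b c, add_comm b d]
  exact PAExp.add_le_add' c d b h2

theorem mul_le_mul_mm {a b c d : MM} (h1 : a ≤ b) (h2 : c ≤ d) : a * c ≤ b * d := by
  refine (PAExp.mul_le_mul' a b c h1).trans ?_
  rw [mul_comm b c, mul_comm b d]
  exact PAExp.mul_le_mul' c d b h2

theorem pr_mono {a b c d : MM} (h1 : a ≤ b) (h2 : c ≤ d) : pr a c ≤ pr b d :=
  add_le_add_mm (mul_le_mul_mm (add_le_add_mm h1 h2) (add_le_add_mm h1 h2)) h1

theorem lt_add_one_mm {a b : MM} (h : a ≤ b) : a < b + 1 :=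
  (PAExp.discrete _ _).2 (PAExp.add_le_add' _ _ 1 h)

theorem le_two_mul (x : MM) : x ≤ 2 * x := by
  rw [two_mul]; exact le_add_left' x x

theorem mk_two : (2 : MM) = mk (fun _ => 2) (bdd_const 2) := by
  have : (2 : MM) = 1 + 1 := by norm_num
  rw [this, mk_one, mk_add]

theorem two_mul_mk {f : ℕ → ℕ} (hf : Bdd f) :
    2 * mk f hf = mk (fun n => 2 * f n) (bdd_mul (bdd_const 2) hf) := by
  rw [mk_two, mk_mul]

theorem lit_false (x : MM) : lit (x, false) = 2 * x := by simp [lit]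

theorem lit_true (x : MM) : lit (x, true) = 2 * x + 1 := by simp [lit]

theorem lit_surj (u : MM) : ∃ p, u = lit p := by
  obtain ⟨f, hf, rfl⟩ := exists_mk u
  have hb : Bdd (fun n => f n / 2) :=
    bdd_of_le hf (Eventually.of_forall fun n => Nat.div_le_self _ _)
  rcases em (∀ᶠ n in (UU : Filter ℕ), f n % 2 = 0) with h | h
  · refine ⟨(mk _ hb, false), ?_⟩
    rw [lit_false, two_mul_mk, mk_eq]
    filter_upwards [h] with n hn; omega
  · rw [not_eventually'] at h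
    refine ⟨(mk _ hb, true), ?_⟩
    rw [lit_true, two_mul_mk, mk_one, mk_add, mk_eq]
    filter_upwards [h] with n hn; omega

theorem two_mul_inj {x y : MM} (h : 2 * x = 2 * y) : x = y := by
  obtain ⟨f, hf, rfl⟩ := exists_mk x; obtain ⟨g, hg, rfl⟩ := exists_mk y
  rw [two_mul_mk, two_mul_mk, mk_eq] at h
  rw [mk_eq]
  filter_upwards [h] with n hn; omega

theorem two_mul_ne {x y : MM} (h : 2 * x = 2 * y + 1) : False := by
  obtain ⟨f, hf, rfl⟩ := exists_mk x; obtain ⟨g, hg, rfl⟩ := exists_mk y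
  rw [two_mul_mk, two_mul_mk, mk_one, mk_add, mk_eq] at h
  obtain ⟨n, hn⟩ := h.exists
  omega

theorem lit_inj : ∀ p q, lit p = lit q → p = q := by
  rintro ⟨x, b⟩ ⟨y, c⟩ h
  cases b <;> cases c
  · rw [lit_false, lit_false] at h; rw [two_mul_inj h]
  · rw [lit_false, lit_true] at h; exact (two_mul_ne h).elim
  · rw [lit_true, lit_false] at h; exact (two_mul_ne h.symm).elim
  · rw [lit_true, lit_true] at h; rw [two_mul_inj (PAExp.add_cancel' _ _ _ h)]

theorem rep_exists (S : Finset (MM × Bool)) : ∃ F, Rep F S := by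
  classical
  obtain ⟨e, he⟩ := exists_code_finset (S.image lit)
  refine ⟨e, ?_⟩
  ext p
  simp only [LS, Set.mem_setOf_eq, he, Finset.mem_image, Finset.mem_coe]
  constructor
  · intro h; exact ⟨p, h, rfl⟩
  · rintro ⟨q, hq, h⟩; rw [← lit_inj _ _ h]; exact hq

theorem rep_unique (F F' : MM) (S : Finset (MM × Bool)) (h : Rep F S) (h' : Rep F' S) :
    F = F' := by
  refine mem_ext fun x => ?_
  obtain ⟨p, rfl⟩ := lit_surj x
  have h1 : LS F = LS F' := h.symm.trans h'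
  have h2 : p ∈ LS F ↔ p ∈ LS F' := by rw [h1]
  exact h2

theorem cfl_iff (F s : MM) : Cfl F s ↔ Conf (LS F) (LS s) := by
  constructor
  · rintro ⟨x, _, ⟨h1, h2⟩ | ⟨h1, h2⟩⟩
    · refine ⟨x, false, ?_, ?_⟩
      · change Mem _ _; rw [lit_false]; exact h1
      · change Mem _ _; rw [Bool.not_false, lit_true]; exact h2
    · refine ⟨x, true, ?_, ?_⟩
      · change Mem _ _; rw [lit_true]; exact h1
      · change Mem _ _; rw [Bool.not_true, lit_false]; exact h2
  · rintro ⟨x, b, h1, h2⟩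
    change Mem _ _ at h1 h2
    cases b
    · rw [lit_false] at h1; rw [Bool.not_false, lit_true] at h2
      exact ⟨x, (le_two_mul x).trans (mem_lt h1).le, Or.inl ⟨h1, h2⟩⟩
    · rw [lit_true] at h1; rw [Bool.not_true, lit_false] at h2
      exact ⟨x, ((le_two_mul x).trans (le_add_right' _ 1)).trans (mem_lt h1).le, Or.inr ⟨h1, h2⟩⟩

theorem crd_iff (F : MM) (l : ℕ) : Crd F l ↔ ∃ S, Rep F S ∧ S.card ≤ l := by
  classical
  constructor
  · rintro ⟨h, _, h1, h2⟩
    have h3 : ∀ p : LS F, ∃ j : Fin l, Mem (pr (lit p.1) ((j : ℕ) : MM)) h := by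
      rintro ⟨p, hp⟩
      obtain ⟨j, hj, hj2⟩ := h1 (lit p) (mem_lt hp).le hp
      obtain ⟨k, hk, rfl⟩ := lt_natCast_iff.1 hj
      exact ⟨⟨k, hk⟩, hj2⟩
    choose f hf using h3
    have hinj : Function.Injective f := by
      rintro ⟨p, hp⟩ ⟨q, hq⟩ hpq
      have e1 := hf ⟨p, hp⟩
      have e2 := hf ⟨q, hq⟩
      rw [hpq] at e1
      have := h2 (lit p) (mem_lt hp).le (lit q) (mem_lt hq).le ((f ⟨q, hq⟩ : ℕ) : MM)
        (natCast_lt.2 (f ⟨q, hq⟩).2) e1 e2
      exact Subtype.ext (lit_inj _ _ this)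
    haveI : Finite (LS F) := Finite.of_injective f hinj
    haveI : Fintype (LS F) := Fintype.ofFinite _
    refine ⟨(LS F).toFinset, ?_, ?_⟩
    · change (((LS F).toFinset : Finset (MM × Bool)) : Set (MM × Bool)) = LS F
      rw [Set.coe_toFinset]
    · rw [Set.toFinset_card]
      simpa using Fintype.card_le_of_injective f hinj
  · rintro ⟨S, hS, hc⟩
    let g := S.equivFin
    let A : Finset MM := Finset.univ.image (fun p : S => pr (lit p.1) ((g p : ℕ) : MM))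
    obtain ⟨h, hh⟩ := exists_code_finset A
    have hmem : ∀ x, Mem x F ↔ ∃ p : S, x = lit p.1 := by
      intro x
      obtain ⟨p, rfl⟩ := lit_surj x
      have h1 : p ∈ (S : Set (MM × Bool)) ↔ p ∈ LS F := by rw [hS]
      constructor
      · intro h2; exact ⟨⟨p, h1.2 h2⟩, rfl⟩
      · rintro ⟨q, hq⟩
        rw [lit_inj _ _ hq] at h1 ⊢
        exact h1.1 q.2
    have hA : ∀ u, Mem u h ↔ ∃ p : S, u = pr (lit p.1) ((g p : ℕ) : MM) := by
      intro u
      rw [hh]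
      simp only [A, Finset.mem_image, Finset.mem_univ, true_and]
      constructor
      · rintro ⟨p, hp⟩; exact ⟨p, hp.symm⟩
      · rintro ⟨p, hp⟩; exact ⟨p, hp.symm⟩
    have hlt : ∀ p : S, ((g p : ℕ) : MM) < (l : MM) := by
      intro p
      exact natCast_lt.2 (lt_of_lt_of_le (g p).2 hc)
    refine ⟨h, ?_, ?_, ?_⟩
    · refine (lt_pow2_of_mem fun u hu => ?_).le
      obtain ⟨p, rfl⟩ := (hA u).1 hu
      exact lt_add_one_mm (pr_mono (mem_lt ((hmem _).2 ⟨p, rfl⟩)).le (hlt p).le)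
    · intro x _ hx
      obtain ⟨p, rfl⟩ := (hmem x).1 hx
      exact ⟨_, hlt p, (hA _).2 ⟨p, rfl⟩⟩
    · intro x _ x' _ j _ h1 h2
      obtain ⟨p, hp⟩ := (hA _).1 h1
      obtain ⟨q, hq⟩ := (hA _).1 h2
      obtain ⟨a1, a2⟩ := pr_inj.1 hp
      obtain ⟨b1, b2⟩ := pr_inj.1 hq
      have : p = q := by
        apply g.injective
        apply Fin.ext
        exact natCast_inj.1 (a2.symm.trans b2)
      rw [a1, b1, this]

theorem crd_mono (F l l' : MM) (hl : l ≤ l') (h : Crd F l) : Crd F l' := by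
  obtain ⟨h, hb, h1, h2⟩ := h
  have hi : Int1 (fun u => Mem u h ∧ ∃ x, x ≤ F ∧ ∃ j, j < l ∧ u = pr x j) := by
    refine Int1.of_delta0 ?_
    refine (IsDelta0.mem (IsTerm.var 0) (IsTerm.param h)).and ?_
    refine IsDelta0.ex (IsTerm.param F) ?_
    refine IsDelta0.exLt (IsTerm.param l) ?_
    exact IsDelta0.eq (IsTerm.var 2) (IsTerm.pr (IsTerm.var 1) (IsTerm.var 0))
  obtain ⟨e, he, hm⟩ := hi.code (pr F l + 1)
  refine ⟨e, ?_, ?_, ?_⟩
  · refine he.le.trans (pow2_le_pow2 (PAExp.add_le_add' _ _ 1 (pr_mono le_rfl hl)))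
  · intro x hx hxF
    obtain ⟨j, hj, hj2⟩ := h1 x hx hxF
    refine ⟨j, lt_of_lt_of_le hj hl, (hm _).2 ⟨lt_add_one_mm (pr_mono hx hj.le), hj2, x, hx, j, hj,
      rfl⟩⟩
  · intro x hx x' hx' j _ h3 h4
    obtain ⟨_, h5, y, hy, i, hi, h6⟩ := (hm _).1 h3
    obtain ⟨_, h7, y', hy', i', hi', h8⟩ := (hm _).1 h4
    obtain ⟨a1, a2⟩ := pr_inj.1 h6
    obtain ⟨b1, b2⟩ := pr_inj.1 h8
    refine h2 x hx x' hx' j ?_ h5 h7
    rw [a2]; exact hi

theorem repBasics_proof : RepBasics :=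
  ⟨lit_surj, lit_inj, rep_exists, rep_unique, cfl_iff, crd_iff, crd_mono⟩

end Pool.Agent.BSig.H75
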